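import Pool.Agent.Lib.MP_dcbbfc_nt.Count

set_option autoImplicit false

open Filter

namespace Pool.Agent.Results.MP_dcbbfc_nt.BothParities

open Pool.Agent.Lib.MP_dcbbfc_nt

/-- The number of partitions of `n` into `d`-th powers of positive integers. -/
noncomputable def powPartitions (d n : ℕ) : ℕ :=
  Nat.card {p : Nat.Partition n // ∀ i ∈ p.parts, ∃ k : ℕ, k ^ d = i}

/-- For every `d ≥ 2` there is a constant `c > 0` with the following properties. (1) For every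
modulus `m ≥ 2` and every `T > 0`, for all large `N`, at least `c (log N) ^ (d - 1)` of the `n ≤ N`
have `p_d(n + T) ≢ p_d(n)` modulo `m`. (2) For every `m ≥ 2` and every sequence `v` which is
periodic modulo `m` from some place on, for all large `N`, at least `c (log N) ^ (d - 1)` of the
`n ≤ N` have `p_d(n) ≢ v(n)` modulo `m`. (3) In particular both parities of `p_d(n)` occur for at
least `c (log N) ^ (d - 1)` of the `n ≤ N`, for all large `N`. -/
theorem result (d : ℕ) (hd : 2 ≤ d) : ∃ c : ℝ, 0 < c ∧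
    (∀ m : ℕ, 2 ≤ m → ∀ T : ℕ, 0 < T →
      ∀ᶠ N : ℕ in atTop, c * Real.log N ^ (d - 1) ≤
        (Nat.card {n : ℕ // n ≤ N ∧ ¬ powPartitions d (n + T) ≡ powPartitions d n [MOD m]} : ℝ)) ∧
    (∀ m : ℕ, 2 ≤ m → ∀ T : ℕ, 0 < T → ∀ v : ℕ → ℕ,
      (∃ n₀, ∀ n, n₀ ≤ n → v (n + T) ≡ v n [MOD m]) →
      ∀ᶠ N : ℕ in atTop, c * Real.log N ^ (d - 1) ≤
        (Nat.card {n : ℕ // n ≤ N ∧ ¬ powPartitions d n ≡ v n [MOD m]} : ℝ)) ∧
    (∀ r : ℕ, r < 2 → ∀ᶠ N : ℕ in atTop, c * Real.log N ^ (d - 1) ≤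
        (Nat.card {n : ℕ // n ≤ N ∧ powPartitions d n % 2 = r} : ℝ)) := by
  refine ⟨cd d, cd_pos hd, fun m hm T hT => changes hd m (by omega) T hT,
    fun m hm T hT v hv => deviations hd m (by omega) T hT v hv, fun r hr => ?_⟩
  have h1 := deviations hd 2 (by norm_num) 1 one_pos (fun _ => 1 - r)
    ⟨0, fun n _ => Nat.ModEq.refl _⟩
  filter_upwards [h1] with N hN
  have h2 : Nat.card {n : ℕ // n ≤ N ∧ ¬ pd d n ≡ 1 - r [MOD 2]} =
      Nat.card {n : ℕ // n ≤ N ∧ powPartitions d n % 2 = r} := by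
    apply Nat.card_congr
    apply Equiv.subtypeEquivRight
    intro n
    show n ≤ N ∧ ¬ pd d n % 2 = (1 - r) % 2 ↔ n ≤ N ∧ pd d n % 2 = r
    omega
  rw [← h2]
  exact hN

end Pool.Agent.Results.MP_dcbbfc_nt.BothParities
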