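import Pool.Agent.Lib.MP_dcbbfc_nt.Main
import Pool.Agent.Lib.MP_dcbbfc_nt.FiniteKernel

set_option autoImplicit false

open scoped PowerSeries LaurentSeries Polynomial RatFunc

namespace Pool.Agent.Results.MP_dcbbfc_nt.TranscendentalModPrimes

open Pool.Agent.Lib.MP_dcbbfc_nt

/-- The number of partitions of `n` into `d`-th powers of positive integers. -/
noncomputable def powPartitions (d n : ℕ) : ℕ :=
  Nat.card {p : Nat.Partition n // ∀ i ∈ p.parts, ∃ k : ℕ, k ^ d = i}

/-- The generating function of `powPartitions d` with coefficients modulo `l`. -/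
noncomputable def genFun (l d : ℕ) : (ZMod l)⟦X⟧ :=
  PowerSeries.mk fun n => (powPartitions d n : ZMod l)

lemma transcendental_genFun (l : ℕ) [Fact l.Prime] (d : ℕ) (hd : 2 ≤ d) :
    ¬ Alg (genFun l d) := by
  intro h
  have h1 := prod_transcendental (l := l) {d} (by
    intro e he
    rw [Finset.mem_singleton] at he
    rw [he]
    exact hd) (fun _ => 1) ⟨d, Finset.mem_singleton_self d, one_ne_zero⟩
  rw [Finset.prod_singleton, zpow_one] at h1
  exact h1 h

/-- Let `l` be a prime. Every product of nonzero integral powers of the generating functions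
modulo `l` of the partitions into `d`-th powers, over a nonempty finite set of exponents `d ≥ 2`,
is transcendental over the field of rational functions over `ZMod l`; for each `d ≥ 2` the
`l`-kernel of the sequence of the residues modulo `l` is infinite; and for each `d ≥ 2` and each
multiple `m` of `l` the sequence of the residues modulo `m` is not periodic from any place on. -/
theorem result (l : ℕ) [Fact l.Prime] :
    (∀ s : Finset ℕ, (∀ d ∈ s, 2 ≤ d) → ∀ e : ℕ → ℤ, (∃ d ∈ s, e d ≠ 0) →
      Transcendental (RatFunc (ZMod l))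
        (∏ d ∈ s, ((genFun l d : (ZMod l)⟦X⟧) : (ZMod l)⸨X⸩) ^ e d)) ∧
    (∀ d : ℕ, 2 ≤ d →
      {u : ℕ → ZMod l | ∃ k b : ℕ, b < l ^ k ∧
        u = fun n => (powPartitions d (l ^ k * n + b) : ZMod l)}.Infinite) ∧
    (∀ d m : ℕ, 2 ≤ d → l ∣ m → ∀ T N : ℕ, 0 < T →
      ∃ n, N ≤ n ∧ ¬ powPartitions d (n + T) ≡ powPartitions d n [MOD m]) := by
  refine ⟨fun s hs e he => prod_transcendental s hs e he, ?_, ?_⟩
  · intro d hd hfin
    exact transcendental_genFun l d hd (alg_of_kernel_finite hfin)
  · intro d m hd hlm T N hT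
    by_contra hcon
    push Not at hcon
    apply transcendental_genFun l d hd
    have hone : Alg ((1 : (ZMod l)⟦X⟧) - PowerSeries.X ^ T) := by
      apply alg_of_deg (D := T)
      intro n hn
      rw [map_sub, PowerSeries.coeff_one, if_neg (by omega), PowerSeries.coeff_X_pow,
        if_neg (by omega), sub_zero]
    have hne : (1 : (ZMod l)⟦X⟧) - PowerSeries.X ^ T ≠ 0 := by
      intro h0
      have h1 := congrArg (PowerSeries.coeff 0) h0
      rw [map_sub, PowerSeries.coeff_one, if_pos rfl, PowerSeries.coeff_X_pow,
        if_neg (by omega), sub_zero, map_zero] at h1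
      exact one_ne_zero h1
    apply Alg.of_mul hone hne
    apply alg_of_deg (D := N + T)
    intro n hn
    rw [sub_mul, one_mul, map_sub, PowerSeries.coeff_X_pow_mul', if_pos (by omega), genFun,
      PowerSeries.coeff_mk, PowerSeries.coeff_mk, sub_eq_zero]
    have h2 := (hcon (n - T) (by omega)).of_dvd hlm
    have h3 : n - T + T = n := by omega
    rw [h3] at h2
    exact (ZMod.natCast_eq_natCast_iff _ _ _).mpr h2

end Pool.Agent.Results.MP_dcbbfc_nt.TranscendentalModPrimes
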